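import Pool.Agent.W223.AC.Stms

/-!
# Quotients are finite dimensional (task AC-FINQ, helper193)
-/

set_option autoImplicit false

namespace Pool.Agent.W193.AC.FINQ

open Polynomial

theorem t : Pool.Agent.W223.AC.StmtFINQ := by
  classical
  intro A _ _ _ _ _ _ _ I hI
  obtain ⟨x, hxI, hx0⟩ := Submodule.exists_mem_ne_zero_of_ne_bot hI
  have hc := Ideal.comap_ne_bot_of_integral_mem (R := ℚ[X]) hx0 hxI (Algebra.IsIntegral.isIntegral x)
  obtain ⟨G, hG, hG0⟩ := Submodule.exists_mem_ne_zero_of_ne_bot hc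
  obtain ⟨S, hS⟩ := Module.Finite.fg_top (R := ℚ[X]) (M := A)
  refine ⟨⟨(S ×ˢ Finset.range (G.natDegree + 1)).image
    (fun p => Ideal.Quotient.mkₐ ℚ I ((X : ℚ[X]) ^ p.2 • p.1)), ?_⟩⟩
  rw [eq_top_iff]
  rintro a -
  obtain ⟨a, rfl⟩ := Ideal.Quotient.mk_surjective a
  suffices h : ∀ p : ℚ[X], Ideal.Quotient.mkₐ ℚ I (p • a) ∈ Submodule.span ℚ
      (((S ×ˢ Finset.range (G.natDegree + 1)).image
        (fun p => Ideal.Quotient.mkₐ ℚ I ((X : ℚ[X]) ^ p.2 • p.1)) : Finset (A ⧸ I)) :
          Set (A ⧸ I)) by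
    have h1 := h 1
    rw [one_smul] at h1
    exact h1
  have ha : a ∈ Submodule.span ℚ[X] (S : Set A) := by
    rw [hS]
    exact Submodule.mem_top
  induction ha using Submodule.span_induction with
  | mem y hy =>
    intro p
    have e1 : p • y = (algebraMap ℚ[X] A G) * ((p / G) • y) + (p % G) • y := by
      rw [Algebra.smul_def (p / G), Algebra.smul_def (p % G), Algebra.smul_def p, ← mul_assoc,
        ← map_mul, ← add_mul, ← map_add, EuclideanDomain.div_add_mod]
    have e2 : Ideal.Quotient.mkₐ ℚ I ((algebraMap ℚ[X] A G) * ((p / G) • y)) = 0 := by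
      rw [Ideal.Quotient.mkₐ_eq_mk, Ideal.Quotient.eq_zero_iff_mem]
      exact I.mul_mem_right _ hG
    have hd : (p % G).natDegree < G.natDegree + 1 :=
      Nat.lt_succ_of_le (natDegree_le_natDegree (degree_mod_lt p hG0).le)
    have e3 : (p % G) • y = ∑ i ∈ Finset.range (G.natDegree + 1),
        (p % G).coeff i • ((X : ℚ[X]) ^ i • y) := by
      conv_lhs => rw [(p % G).as_sum_range' _ hd, Finset.sum_smul]
      refine Finset.sum_congr rfl fun i _ => ?_
      rw [← C_mul_X_pow_eq_monomial, ← smul_eq_C_mul, smul_assoc]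
    rw [e1, map_add, e2, zero_add, e3, map_sum]
    refine Submodule.sum_mem _ fun i hi => ?_
    rw [map_smul]
    refine Submodule.smul_mem _ _ (Submodule.subset_span ?_)
    rw [Finset.mem_coe, Finset.mem_image]
    exact ⟨(y, i), Finset.mem_product.2 ⟨hy, hi⟩, rfl⟩
  | zero =>
    intro p
    rw [smul_zero, map_zero]
    exact Submodule.zero_mem _
  | add y z _ _ hy hz =>
    intro p
    rw [smul_add, map_add]
    exact Submodule.add_mem _ (hy p) (hz p)
  | smul r y _ hy =>
    intro p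
    rw [smul_smul]
    exact hy _

end Pool.Agent.W193.AC.FINQ
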