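import Pool.Agent.W46.AC.Stm

/-!
# The integral bound for boxes, from the bound for tubes
-/

set_option autoImplicit false

open MeasureTheory Set Filter Topology ENNReal NNReal Metric

namespace Pool.Agent.W193.AC

open Pool.Agent.H810R3.Tub Pool.Agent.W772 Pool.Agent.W46.AC

variable {d : ℕ}

/-- The directions are separated. -/
theorem dir_sep (v v' : Vec d) (hv : ‖v‖ ≤ 2) (hv' : ‖v'‖ ≤ 2) :
    ‖v - v'‖ ≤ 8 * ‖dir v - dir v'‖ := by
  set s : ℝ := (√(1 + ‖v‖ ^ 2))⁻¹ with hs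
  set s' : ℝ := (√(1 + ‖v'‖ ^ 2))⁻¹ with hs'
  set D : ℝ := ‖dir v - dir v'‖ with hD
  have hD0 : 0 ≤ D := norm_nonneg _
  have hsq : D ^ 2 = ‖s • v - s' • v'‖ ^ 2 + (s - s') ^ 2 := by
    rw [hD, norm_space_sq]
    congr 2
    unfold dir
    rw [WithLp.sub_snd, WithLp.smul_snd, WithLp.smul_snd]
    simp [hs, hs']
  have h1 : ‖s • v - s' • v'‖ ≤ D := by
    apply le_of_sq_le_sq _ hD0
    rw [hsq]; nlinarith [sq_nonneg (s - s')]
  have h2 : |s - s'| ≤ D := by
    apply abs_le_of_sq_le_sq _ hD0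
    rw [hsq]; nlinarith [sq_nonneg ‖s • v - s' • v'‖]
  have hs38 : 3 / 8 ≤ s := by
    have h3 : √(1 + ‖v‖ ^ 2) ≤ 8 / 3 := by
      rw [Real.sqrt_le_left (by norm_num)]
      nlinarith [norm_nonneg v]
    have h4 : 0 < √(1 + ‖v‖ ^ 2) := by positivity
    rw [hs, le_inv_comm₀ (by norm_num) h4]
    linarith
  have hs0 : 0 < s := by linarith
  have h5 : s * ‖v - v'‖ ≤ 3 * D := by
    calc s * ‖v - v'‖ = ‖s • (v - v')‖ := by rw [norm_smul, Real.norm_of_nonneg hs0.le]
      _ = ‖(s • v - s' • v') + (s' - s) • v'‖ := by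
          congr 1
          rw [smul_sub, sub_smul]; abel
      _ ≤ ‖s • v - s' • v'‖ + ‖(s' - s) • v'‖ := norm_add_le _ _
      _ ≤ D + D * 2 := by
          rw [norm_smul, Real.norm_eq_abs, abs_sub_comm]
          exact add_le_add h1 (mul_le_mul h2 hv' (norm_nonneg _) hD0)
      _ = 3 * D := by ring
  nlinarith [norm_nonneg (v - v')]

theorem nor_sep (w w' : Vec d) (hw : ‖w‖ ≤ 1) (hw' : ‖w'‖ ≤ 1) :
    ‖w - w'‖ ≤ 4 * ‖nor w - nor w'‖ := by
  have h2 : ∀ u : Vec d, ‖u‖ ≤ 1 → ‖-(2 : ℝ) • u‖ ≤ 2 := by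
    intro u hu
    rw [norm_smul, norm_neg, Real.norm_eq_abs, abs_of_pos (by norm_num : (0:ℝ) < 2)]
    linarith
  have h := dir_sep (-(2 : ℝ) • w) (-(2 : ℝ) • w') (h2 w hw) (h2 w' hw')
  rw [← smul_sub, norm_smul, norm_neg, Real.norm_eq_abs, abs_of_pos (by norm_num : (0:ℝ) < 2)] at h
  unfold nor
  linarith

/-- The cylinder of length `R` and radius `δ R`. -/
def cyl (R δ : ℝ) (c e : Space d) : Set (Space d) :=
  {y | |inner ℝ (y - c) e| ≤ R / 2 ∧ ‖(y - c) - (inner ℝ (y - c) e : ℝ) • e‖ ≤ δ * R}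

/-- The grid. -/
noncomputable def off (N : ℝ) (m : ℕ) (f : Fin d → Space d) (k : Fin d → Fin (m + 1)) : Space d :=
  ∑ j, (-(N / 2) + ((k j : ℕ) : ℝ) * (N / m)) • f j

theorem inner_f {e : Space d} {f : Fin d → Space d}
    (h : Orthonormal ℝ (Fin.cons e f : Fin (d + 1) → Space d)) (i j : Fin d) :
    (inner ℝ (f i) (f j) : ℝ) = if i = j then 1 else 0 := by
  have h1 := (orthonormal_iff_ite.1 h) i.succ j.succ
  simpa using h1

theorem inner_ef {e : Space d} {f : Fin d → Space d}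
    (h : Orthonormal ℝ (Fin.cons e f : Fin (d + 1) → Space d)) (j : Fin d) :
    (inner ℝ e (f j) : ℝ) = 0 := by
  have h1 := (orthonormal_iff_ite.1 h) 0 j.succ
  rw [if_neg (Fin.succ_ne_zero j).symm] at h1
  simpa using h1

theorem inner_off {e : Space d} {f : Fin d → Space d}
    (h : Orthonormal ℝ (Fin.cons e f : Fin (d + 1) → Space d)) (N : ℝ) (m : ℕ)
    (k : Fin d → Fin (m + 1)) (i : Fin d) :
    (inner ℝ (f i) (off N m f k) : ℝ) = -(N / 2) + ((k i : ℕ) : ℝ) * (N / m) := by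
  unfold off
  rw [inner_sum]
  simp only [inner_smul_right, inner_f h]
  simp

theorem inner_e_off {e : Space d} {f : Fin d → Space d}
    (h : Orthonormal ℝ (Fin.cons e f : Fin (d + 1) → Space d)) (N : ℝ) (m : ℕ)
    (k : Fin d → Fin (m + 1)) : (inner ℝ e (off N m f k) : ℝ) = 0 := by
  unfold off
  rw [inner_sum]
  simp only [inner_smul_right, inner_ef h]
  simp

/-- A box is covered by cylinders. -/
theorem cover {N δ : ℝ} (hN : 1 ≤ N) {m : ℕ} (hm : 1 ≤ m) (hmd : (d : ℝ) * (N / m) ≤ δ * N ^ 2)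
    {e : Space d} {f : Fin d → Space d}
    (h : Orthonormal ℝ (Fin.cons e f : Fin (d + 1) → Space d)) {a y : Space d}
    (hy : y ∈ box N e f a) : ∃ k : Fin d → Fin (m + 1), y ∈ cyl (N ^ 2) δ (a + off N m f k) e := by
  have hN0 : 0 < N := by linarith
  have hm0 : (0 : ℝ) < m := by exact_mod_cast hm
  have hNm : 0 < N / m := by positivity
  have hk : ∀ j : Fin d, ∃ k : Fin (m + 1),
      |(inner ℝ (f j) (y - a) : ℝ) - (-(N / 2) + ((k : ℕ) : ℝ) * (N / m))| ≤ N / m := by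
    intro j
    set u : ℝ := inner ℝ (f j) (y - a) with hu
    have hu2 : |u| ≤ N / 2 := hy.2 j
    rw [abs_le] at hu2
    set x : ℝ := (u + N / 2) / (N / m) with hx
    have hx0 : 0 ≤ x := div_nonneg (by linarith) hNm.le
    have hxm : x ≤ m := by
      rw [hx, div_le_iff₀ hNm, mul_div_cancel₀ _ hm0.ne']
      linarith
    have hfl : ⌊x⌋₊ ≤ m := by
      have h1 : ⌊x⌋₊ ≤ ⌊(m : ℝ)⌋₊ := Nat.floor_mono hxm
      rwa [Nat.floor_natCast] at h1
    refine ⟨⟨⌊x⌋₊, by omega⟩, ?_⟩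
    have h1 := Nat.floor_le hx0
    have h2 := (Nat.lt_floor_add_one x).le
    have e1 : u - (-(N / 2) + (⌊x⌋₊ : ℝ) * (N / m)) = (x - (⌊x⌋₊ : ℝ)) * (N / m) := by
      have : x * (N / m) = u + N / 2 := div_mul_cancel₀ _ hNm.ne'
      rw [sub_mul, this]; ring
    show |u - (-(N / 2) + (⌊x⌋₊ : ℝ) * (N / m))| ≤ N / m
    rw [e1, abs_mul, abs_of_pos hNm, abs_of_nonneg (by linarith)]
    calc (x - (⌊x⌋₊ : ℝ)) * (N / m) ≤ 1 * (N / m) := by
          apply mul_le_mul_of_nonneg_right _ hNm.le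
          linarith
      _ = N / m := one_mul _
  choose k hk using hk
  refine ⟨k, ?_⟩
  set z := y - a with hz
  have hz2 : y - (a + off N m f k) = z - off N m f k := by rw [hz]; abel
  have hin : (inner ℝ (y - (a + off N m f k)) e : ℝ) = inner ℝ e z := by
    rw [hz2, real_inner_comm, inner_sub_right, inner_e_off h, sub_zero]
  have he := norm_e h
  refine ⟨?_, ?_⟩
  · rw [hin]
    exact hy.1
  · rw [hin, hz2]
    set w := z - off N m f k with hw
    have hew : (inner ℝ e z : ℝ) = inner ℝ e w := by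
      rw [hw, inner_sub_right e z (off N m f k), inner_e_off h, sub_zero]
    rw [hew]
    have h1 : ‖w - (inner ℝ e w : ℝ) • e‖ ^ 2 = ∑ j, (inner ℝ (f j) w) ^ 2 := by
      have e1 : ‖w - (inner ℝ e w : ℝ) • e‖ ^ 2 = ‖w‖ ^ 2 - (inner ℝ e w) ^ 2 := by
        rw [@norm_sub_sq_real, norm_smul, inner_smul_right, real_inner_comm e w, he,
          Real.norm_eq_abs, mul_one, sq_abs]
        ring
      rw [e1, norm_sq_frame h w]
      ring
    have h2 : ∑ j, (inner ℝ (f j) w) ^ 2 ≤ ∑ _j : Fin d, (N / m) ^ 2 := by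
      refine Finset.sum_le_sum fun j _ => ?_
      have h3 : |(inner ℝ (f j) w : ℝ)| ≤ N / m := by
        rw [hw, inner_sub_right, inner_off h]
        exact hk j
      rw [← sq_abs]
      exact pow_le_pow_left₀ (abs_nonneg _) h3 2
    rw [Finset.sum_const, Finset.card_univ, Fintype.card_fin, nsmul_eq_mul] at h2
    have h4 : ‖w - (inner ℝ e w : ℝ) • e‖ ≤ (d : ℝ) * (N / m) := by
      apply le_of_sq_le_sq _ (by positivity)
      rw [h1]
      refine h2.trans ?_
      rcases Nat.eq_zero_or_pos d with h0 | h0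
      · subst h0; simp
      · have hd1 : (1 : ℝ) ≤ d := by exact_mod_cast h0
        have : (d : ℝ) ≤ (d : ℝ) ^ 2 := by nlinarith
        rw [mul_pow]
        exact mul_le_mul_of_nonneg_right this (by positivity)
    exact h4.trans hmd

/-- The isometry with the coordinate space. -/
noncomputable def iso (d : ℕ) : Space d ≃ₗᵢ[ℝ] EuclideanSpace ℝ (Fin (d + 1)) :=
  ((stdOrthonormalBasis ℝ (Space d)).reindex (finCongr finrank_space)).repr

theorem cyl_iff {R δ : ℝ} (hR : 0 < R) (c e y : Space d) :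
    R • y ∈ cyl R δ c e ↔
      iso d y ∈ Pool.Agent.W46.KK.tube δ (iso d (R⁻¹ • c)) (iso d e) := by
  obtain ⟨u, hu⟩ : ∃ u, u = y - R⁻¹ • c := ⟨_, rfl⟩
  have h1 : R • y - c = R • u := by
    rw [hu, smul_sub, smul_smul, mul_inv_cancel₀ hR.ne', one_smul]
  have h2 : iso d y - iso d (R⁻¹ • c) = iso d u := by rw [hu, map_sub]
  show (|inner ℝ (R • y - c) e| ≤ R / 2 ∧
      ‖(R • y - c) - (inner ℝ (R • y - c) e : ℝ) • e‖ ≤ δ * R) ↔
    (|inner ℝ (iso d y - iso d (R⁻¹ • c)) (iso d e)| ≤ 1 / 2 ∧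
      ‖(iso d y - iso d (R⁻¹ • c)) - (inner ℝ (iso d y - iso d (R⁻¹ • c)) (iso d e) : ℝ) • iso d e‖ ≤ δ)
  rw [h1, h2, LinearIsometryEquiv.inner_map_map]
  have h3 : iso d u - (inner ℝ u e : ℝ) • iso d e = iso d (u - (inner ℝ u e : ℝ) • e) := by
    rw [map_sub, map_smul]
  rw [h3, LinearIsometryEquiv.norm_map]
  have h4 : (inner ℝ (R • u) e : ℝ) = R * inner ℝ u e := by
    rw [inner_smul_left]; simp
  have h5 : R • u - (R * (inner ℝ u e : ℝ)) • e = R • (u - (inner ℝ u e : ℝ) • e) := by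
    rw [smul_sub, smul_smul]
  rw [h4, h5, norm_smul, Real.norm_of_nonneg hR.le, abs_mul, abs_of_pos hR]
  refine and_congr ?_ ?_
  · rw [← mul_le_mul_iff_right₀ hR (b := |(inner ℝ u e : ℝ)|)]
    constructor
    · intro h; linarith
    · intro h; linarith
  · rw [mul_comm δ R]
    exact mul_le_mul_iff_right₀ hR

theorem tube_closed' {n : ℕ} (δ : ℝ) (a e : EuclideanSpace ℝ (Fin n)) :
    IsClosed (Pool.Agent.W46.KK.tube δ a e) := by
  have h1 : Continuous (fun y : EuclideanSpace ℝ (Fin n) => |inner ℝ (y - a) e|) := by fun_prop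
  have h2 : Continuous (fun y : EuclideanSpace ℝ (Fin n) =>
    ‖(y - a) - (inner ℝ (y - a) e : ℝ) • e‖) := by fun_prop
  exact (isClosed_le h1 continuous_const).inter (isClosed_le h2 continuous_const)

/-- The moment of a sum of cylinders. -/
theorem cyl_int {q δ R : ℝ} (hR : 0 < R) {ι : Type} [Fintype ι]
    (c e : ι → Space d) {B : ℝ≥0∞}
    (hB : ∫⁻ x, (∑ i, (Pool.Agent.W46.KK.tube δ (iso d (R⁻¹ • c i)) (iso d (e i))).indicator
      (fun _ => (1 : ℝ≥0∞)) x) ^ q ≤ B) :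
    ∫⁻ y, (∑ i, (cyl R δ (c i) (e i)).indicator (fun _ => (1 : ℝ≥0∞)) y) ^ q ≤
      ENNReal.ofReal (R ^ (d + 1)) * B := by
  set G : EuclideanSpace ℝ (Fin (d + 1)) → ℝ≥0∞ := fun x =>
    (∑ i, (Pool.Agent.W46.KK.tube δ (iso d (R⁻¹ • c i)) (iso d (e i))).indicator
      (fun _ => (1 : ℝ≥0∞)) x) ^ q with hG
  set g : Space d → ℝ≥0∞ := fun y =>
    (∑ i, (cyl R δ (c i) (e i)).indicator (fun _ => (1 : ℝ≥0∞)) y) ^ q with hg
  have hGm : Measurable G := by
    refine Measurable.pow_const ?_ q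
    apply Finset.measurable_fun_sum
    intro i _
    exact measurable_const.indicator (tube_closed' _ _ _).measurableSet
  have h1 : ∀ y, g (R • y) = G (iso d y) := by
    intro y
    simp only [hg, hG]
    congr 1
    refine Finset.sum_congr rfl fun i _ => ?_
    by_cases hy : R • y ∈ cyl R δ (c i) (e i)
    · rw [indicator_of_mem hy, indicator_of_mem ((cyl_iff hR _ _ _).1 hy)]
    · rw [indicator_of_notMem hy, indicator_of_notMem (fun h => hy ((cyl_iff hR _ _ _).2 h))]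
  have h2 : ∫⁻ y, G (iso d y) = ∫⁻ x, G x :=
    ((iso d).measurePreserving).lintegral_comp hGm
  have h3 := lint_smul (volume : Measure (Space d)) hR.ne' g
  rw [finrank_space] at h3
  have h4 : ∫⁻ y, g y = ENNReal.ofReal (R ^ (d + 1)) * ∫⁻ x, G x := by
    rw [← h2, ← lintegral_congr h1, h3, ← mul_assoc, ← ENNReal.ofReal_mul (by positivity)]
    rw [abs_of_pos (by positivity), mul_inv_cancel₀ (by positivity), ENNReal.ofReal_one, one_mul]
  rw [h4]
  gcongr

theorem INT (h : ∀ q, Pool.Agent.W46.HM.S_TUBEQ q) : S_INT := by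
  intro d hd σ hσ hσ1
  have hd0 : (0 : ℝ) < d := by exact_mod_cast (by omega : 0 < d)
  set q : ℝ := 1 + (16752 / 10000) / (d : ℝ) with hq
  have hq1 : 1 ≤ q := by
    have : 0 < (16752 / 10000) / (d : ℝ) := by positivity
    rw [hq]; linarith
  have hqd : q - 1 / (d : ℝ) = 1 + (6752 / 10000) / (d : ℝ) := by
    rw [hq]; field_simp; ring
  obtain ⟨C, hC, hT⟩ := h q d hd le_rfl
  set m : ℕ := ⌈4 * (d : ℝ) / σ⌉₊ with hm
  have hm1 : 1 ≤ m := Nat.one_le_ceil_iff.2 (by positivity)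
  have hm0 : (0 : ℝ) < m := by exact_mod_cast hm1
  have hmle : 4 * (d : ℝ) / σ ≤ m := Nat.le_ceil _
  set K : ℝ := ((Fintype.card (Fin d → Fin (m + 1)) : ℕ) : ℝ) with hK
  have hK0 : 0 < K := by
    rw [hK]
    exact_mod_cast Fintype.card_pos
  refine ⟨K ^ (q - 1) * (K * (C * (σ / 4) ^ d)), by positivity, ?_⟩
  intro N hN ι _ ω f a hω hsep hf
  have hN0 : 0 < N := by linarith
  set δ : ℝ := σ / 4 / N with hδ
  have hδ0 : 0 < δ := by positivity
  have hδ1 : δ ≤ 1 := by
    rw [hδ, div_le_one hN0]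
    linarith
  have hmd : (d : ℝ) * (N / m) ≤ δ * N ^ 2 := by
    have e1 : δ * N ^ 2 = σ / 4 * N := by
      rw [hδ]; field_simp
    have e2 : (d : ℝ) * (N / m) = (d : ℝ) / m * N := by ring
    rw [e1, e2]
    apply mul_le_mul_of_nonneg_right _ hN0.le
    rw [div_le_iff₀ hm0]
    rw [div_le_iff₀ hσ] at hmle
    linarith
  set Fk : (Fin d → Fin (m + 1)) → Space d → ℝ≥0∞ := fun k y =>
    ∑ i, (cyl (N ^ 2) δ (a i + off N m (f i) k) (nor (ω i))).indicator (fun _ => (1 : ℝ≥0∞)) y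
    with hFk
  have h1 : ∀ y, Fb N ω f a y ≤ ∑ k, Fk k y := by
    intro y
    simp only [hFk]
    rw [Finset.sum_comm]
    unfold Fb
    refine Finset.sum_le_sum fun i _ => ?_
    by_cases hy : y ∈ box N (nor (ω i)) (f i) (a i)
    · obtain ⟨k, hk⟩ := cover hN hm1 hmd (hf i) hy
      rw [indicator_of_mem hy]
      calc (1 : ℝ≥0∞) = (cyl (N ^ 2) δ (a i + off N m (f i) k) (nor (ω i))).indicator
            (fun _ => (1 : ℝ≥0∞)) y := by rw [indicator_of_mem hk]
        _ ≤ _ := Finset.single_le_sum (f := fun k => (cyl (N ^ 2) δ (a i + off N m (f i) k)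
            (nor (ω i))).indicator (fun _ => (1 : ℝ≥0∞)) y) (fun _ _ => zero_le)
            (Finset.mem_univ k)
    · rw [indicator_of_notMem hy]
      exact zero_le
  set M : ℝ := (Fintype.card ι : ℝ) with hM
  set B : ℝ≥0∞ := ENNReal.ofReal (C * δ ^ (d : ℝ) * M ^ (q - 1 / (d : ℝ))) with hB
  have h2 : ∀ k, ∫⁻ y, Fk k y ^ q ≤ ENNReal.ofReal ((N ^ 2) ^ (d + 1)) * B := by
    intro k
    refine cyl_int (by positivity) _ _ ?_
    refine hT δ hδ0 hδ1 ι _ _ ?_ ?_
    · intro i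
      rw [LinearIsometryEquiv.norm_map]
      exact norm_e (hf i)
    · intro i j hij
      rw [← map_sub, LinearIsometryEquiv.norm_map]
      have h3 := nor_sep (ω i) (ω j) (hω i) (hω j)
      have h4 := hsep i j hij
      have h5 : δ = σ / N / 4 := by rw [hδ]; ring
      rw [h5]
      linarith
  have hFkm : ∀ k, Measurable (fun y => Fk k y ^ q) := by
    intro k
    refine Measurable.pow_const ?_ q
    apply Finset.measurable_fun_sum
    intro i _
    refine measurable_const.indicator ?_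
    have g1 : Continuous (fun y : Space d =>
      |inner ℝ (y - (a i + off N m (f i) k)) (nor (ω i))|) := by fun_prop
    have g2 : Continuous (fun y : Space d => ‖(y - (a i + off N m (f i) k)) -
      (inner ℝ (y - (a i + off N m (f i) k)) (nor (ω i)) : ℝ) • nor (ω i)‖) := by fun_prop
    exact ((isClosed_le g1 continuous_const).inter (isClosed_le g2 continuous_const)).measurableSet
  calc ∫⁻ y, Fb N ω f a y ^ q
      ≤ ∫⁻ y, ENNReal.ofReal (K ^ (q - 1)) * ∑ k, Fk k y ^ q := by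
        refine lintegral_mono fun y => ?_
        calc Fb N ω f a y ^ q ≤ (∑ k, Fk k y) ^ q :=
              ENNReal.rpow_le_rpow (h1 y) (by linarith)
          _ ≤ _ := by
              have h6 := ENNReal.rpow_sum_le_const_mul_sum_rpow (s := Finset.univ)
                (f := fun k => Fk k y) hq1
              refine h6.trans (le_of_eq ?_)
              congr 1
              rw [Finset.card_univ, ← ENNReal.ofReal_natCast,
                ENNReal.ofReal_rpow_of_pos hK0]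
    _ = ENNReal.ofReal (K ^ (q - 1)) * ∑ k, ∫⁻ y, Fk k y ^ q := by
        rw [lintegral_const_mul _ (Finset.measurable_fun_sum _ fun k _ => hFkm k),
          lintegral_finsetSum _ fun k _ => hFkm k]
    _ ≤ ENNReal.ofReal (K ^ (q - 1)) * ∑ _k : Fin d → Fin (m + 1),
          (ENNReal.ofReal ((N ^ 2) ^ (d + 1)) * B) := by
        gcongr with k _
        exact h2 k
    _ = _ := by
        rw [Finset.sum_const, Finset.card_univ, nsmul_eq_mul, ← ENNReal.ofReal_natCast, ← hK, hB,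
          ← ENNReal.ofReal_mul (by positivity), ← ENNReal.ofReal_mul (by positivity),
          ← ENNReal.ofReal_mul (by positivity)]
        congr 1
        rw [hqd, Real.rpow_natCast]
        have e1 : δ ^ d * (N ^ 2) ^ (d + 1) = (σ / 4) ^ d * N ^ (d + 2) := by
          rw [hδ, div_pow (σ / 4) N d]
          field_simp
          ring
        calc K ^ (q - 1) * (K * ((N ^ 2) ^ (d + 1) * (C * δ ^ d * M ^ (1 + 6752 / 10000 / (d : ℝ)))))
            = K ^ (q - 1) * (K * (C * M ^ (1 + 6752 / 10000 / (d : ℝ)))) *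
                (δ ^ d * (N ^ 2) ^ (d + 1)) := by ring
          _ = _ := by rw [e1]; ring

end Pool.Agent.W193.AC
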